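import Pool.Agent.W5h81.Loc.Main

set_option autoImplicit false

/-!
# MP_339868_lc: a nontrivial complete subforcing of localization forcing without Cohen reals

Negative answer to Q1: the regular open algebra of localization forcing has a complete subalgebra `B`
such that it is forced that `V[G ∩ B] ≠ V` and that `V[G ∩ B]` contains no Cohen real over `V`.

Proof.  Let `C (n, m)`, `m < ω`, be the finite unions of rational intervals of measure at most
`2 ^ (-n-2) / (n+1)`.  A slalom `φ` gives the open set `U_φ`, the union of the `C (n, m)` with
`m ∈ φ(n)`, of measure at most `1/2`; let `x_φ` be the least element of `[0, 1] \ U_φ`.  The
slaloms, with the topology given by the conditions, form a Baire space; `x` is lower semicontinuous,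
hence Borel.  A null set `E` of the ground model is covered by the sets `C (i, f(i))`, `i > n`, for
some `f`, so the conditions `q` with `f ∈ F_q` force that `x` is not in `E`: the real `x` is random
over the ground model.  The truth values of `x ∈ E`, `E` Borel, are the elements of `B`; it is
complete by an essential infimum argument.  It is nontrivial because points are null, and there is
no Cohen real, because for a Borel map `g` from `[0, 1]` to `2 ^ ω` there are open dense sets of
arbitrarily small measure for the image measure.
-/

namespace Pool.Agent.Results.MP_339868_lc.NoCohenSubforcing

open Pool.Agent.W5h81.Loc

/-- There is a complete subalgebra of the regular open algebra of localization forcing whose generic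
extensions properly extend `V` but contain no Cohen real over `V`. -/
theorem result : ∃ B : Set (Set Cond),
    CompleteSubalgebra B ∧ ForcesNew B ∧ NoCohen B :=
  ⟨B, complete_B, nontrivial_B, noCohen_B⟩

end Pool.Agent.Results.MP_339868_lc.NoCohenSubforcing
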